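import Pool.Agent.H65.GManifold.Defs
import Pool.Agent.H65.GManifold.Types
import Pool.Agent.H65.GManifold.SphereDiam

set_option autoImplicit false

/-!
# A compact `G`-manifold with two different singular orbits and positive curvature

The group `G = S¹ × S³` acts on `S⁷ ⊆ ℍ²` by `(z, u) • (q₁, q₂) = (z q₁ u⁻¹, q₂ u⁻¹)`. There are
exactly two non-principal orbits, `q₁ = 0` and `q₂ = 0`, both of them singular, the cohomogeneity
is three, and the isotropy groups `S¹ × 1` and `{(z, z)}` of `(0, 1)` and `(1, 0)` are not related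
by an automorphism of `G`: the first is normal, the second is not.
-/

namespace Pool.Agent.Results.MP_9877a5_gt.RoundSevenSphere

open Pool.Agent.H65.GManifold Bundle Manifold MulAction
open scoped ContDiff Manifold Quaternion

noncomputable section

attribute [local instance] act

/-- The `G`-manifold `S⁷`. -/
def sevenSphere : CompactGManifold where
  EG := EuclideanSpace ℝ (Fin 1) × EuclideanSpace ℝ (Fin 3)
  HG := ModelProd (EuclideanSpace ℝ (Fin 1)) (EuclideanSpace ℝ (Fin 3))
  G := GG
  EM := EuclideanSpace ℝ (Fin 7)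
  HM := EuclideanSpace ℝ (Fin 7)
  M := S7
  IG := IGG
  IM := 𝓡 7
  action := act
  effective := faithfulAct
  compactM := inferInstanceAs (CompactSpace (Metric.sphere (0 : HH) 1))
  smooth := contMDiff_act

/-- **Theorem.** There is a compact `G`-manifold with exactly two non-principal orbits, both
singular, of cohomogeneity three, such that no automorphism of `G` maps the isotropy group of one
singular orbit onto an isotropy group of the other, which carries a metric with `sec ≥ 16` and
`diam ≤ 1`; in particular it admits almost nonnegative sectional curvature. -/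
theorem result : ∃ (X : CompactGManifold) (x y : X.M),
    X.HasCohomogeneity 3 ∧
    IsSingular X.IG X.IM X.G x ∧ IsSingular X.IG X.IM X.G y ∧
    (∀ w : X.M, ¬ IsPrincipal X.G w → w ∈ orbit X.G x ∨ w ∈ orbit X.G y) ∧
    X.DifferentOrbits x y ∧
    (∃ g : ContMDiffRiemannianMetric X.IM ∞ X.EM (fun p : X.M => TangentSpace X.IM p),
      SectionalCurvatureGE g 16 ∧ DiameterLE g 1) ∧
    AdmitsAlmostNonnegativeCurvature X.IM X.M := by
  have hd : DiameterLE (gSph (E := HH) (n := 7) (1 / 4) (by norm_num)) 1 := by
    have h := diameterLE_gSph (E := HH) (n := 7) (by norm_num) (1 / 4) (by norm_num) 1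
      (by linarith [Real.pi_le_four])
    rwa [ENNReal.ofReal_one] at h
  have h0 : ∀ x : S7, IsPrincipal GG x →
      orbitDim IGG (𝓡 7) GG x + 3 = Module.finrank ℝ (EuclideanSpace ℝ (Fin 7)) := by
    intro x hx
    obtain ⟨h1, h2⟩ := (isPrincipal_iff x).1 hx
    rw [orbitDim_generic h1 h2, finrank_euclideanSpace]
    simp
  have h1 : sevenSphere.HasCohomogeneity 3 :=
    ⟨⟨pz, (isPrincipal_iff pz).2 ⟨pz_fst, pz_snd⟩⟩, h0⟩
  have h2 : ∃ g : ContMDiffRiemannianMetric (𝓡 7) ∞ (EuclideanSpace ℝ (Fin 7))
      (fun p : S7 => TangentSpace (𝓡 7) p), SectionalCurvatureGE g 16 ∧ DiameterLE g 1 :=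
    ⟨gSph (E := HH) (n := 7) (1 / 4) (by norm_num),
      sectionalCurvatureGE_gSph _ _ (by norm_num), hd⟩
  have h3 : AdmitsAlmostNonnegativeCurvature (𝓡 7) S7 := fun ε hε =>
    ⟨gSph (E := HH) (n := 7) (1 / 4) (by norm_num),
      sectionalCurvatureGE_gSph _ _ (by nlinarith), hd⟩
  exact ⟨sevenSphere, px, py, h1, isSingular_px, isSingular_py,
    fun w hw => mem_orbit_of_not_isPrincipal hw, not_map_stabilizer, h2, h3⟩

end

end Pool.Agent.Results.MP_9877a5_gt.RoundSevenSphere
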